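import Pool.Agent.U84.AWQ.Stm
import Pool.Agent.R456.CL.Dich

/-!
# Project AWQ, package DICH: the dichotomy for a properly infinite projection below `q + r`
-/

set_option autoImplicit false

namespace Pool.Agent.U460.AWQ

open Pool.Agent.R456.CL Pool.Agent.U84.AWQ Pool.Agent.R456.CL.Dich

universe u

section base

variable {A : Type u} [CStarAlgebra A]

lemma cp_pj {z p : A} (hz : CP z) (hp : PJ p) : PJ (z * p) := by
  refine mkPJ ?_ ?_
  · calc z * p * (z * p) = z * (p * z) * p := by noncomm_ring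
      _ = (z * z) * (p * p) := by rw [← hz.2 p]; noncomm_ring
      _ = z * p := by rw [idm hz.1, idm hp]
  · rw [star_mul, sa hp, sa hz.1, hz.2]

lemma cp_orth {z p q : A} (hz : CP z) (h : p * q = 0) : z * p * (z * q) = 0 := by
  calc z * p * (z * q) = z * (p * z) * q := by noncomm_ring
    _ = (z * z) * (p * q) := by rw [← hz.2 p]; noncomm_ring
    _ = 0 := by rw [h, mul_zero]

lemma cp_le {z p q : A} (hz : CP z) (h : p * q = p) : z * p * (z * q) = z * p := by
  calc z * p * (z * q) = z * (p * z) * q := by noncomm_ring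
    _ = (z * z) * (p * q) := by rw [← hz.2 p]; noncomm_ring
    _ = z * p := by rw [h, idm hz.1]

lemma cp_sub {z p q : A} (hz : CP z) (h : Sub p q) : Sub (z * p) (z * q) := by
  obtain ⟨v, h1, h2⟩ := h
  have e1 : star (z * v) * (z * v) = z * (star v * v) := by
    rw [star_mul, sa hz.1]
    calc star v * z * (z * v) = star v * (z * z) * v := by noncomm_ring
      _ = (star v * z) * v := by rw [idm hz.1]
      _ = z * (star v * v) := by rw [← hz.2 (star v), mul_assoc]
  have e2 : z * v * star (z * v) = z * (v * star v) := by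
    rw [star_mul, sa hz.1]
    calc z * v * (star v * z) = z * ((v * star v) * z) := by noncomm_ring
      _ = (z * z) * (v * star v) := by rw [← hz.2 (v * star v)]; noncomm_ring
      _ = z * (v * star v) := by rw [idm hz.1]
  refine ⟨z * v, by rw [e1, h1], ?_⟩
  rw [e2]
  exact cp_le hz h2

lemma cp_one_sub {z : A} (hz : CP z) : CP (1 - z) := by
  refine ⟨?_, fun x => ?_⟩
  · refine mkPJ ?_ ?_
    · rw [mul_sub, sub_mul, sub_mul, idm hz.1]
      simp
    · rw [star_sub, star_one, sa hz.1]
  · rw [sub_mul, mul_sub, hz.2, one_mul, mul_one]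

/-- the end of the argument, for one central projection -/
lemma cp_end {z R D L E m r g : A} (hz : CP z) (hR : PJ R) (hD : PJ D) (hL : PJ L) (hE : PJ E)
    (hg : PJ g) (hm : PJ m) (hr : PJ r) (RD : R * D = 0) (LE : L * E = 0) (RDm : R + D = m)
    (LEr : L + E = r) (sRL : Sub R L) (h : Sub (z * D) (z * E)) (sm : Sub g m) :
    Sub (z * g) (z * r) := by
  have h1 := sub_add (cp_pj hz hR) (cp_pj hz hD) (cp_pj hz hL) (cp_pj hz hE) (cp_orth hz RD)
    (cp_orth hz LE) (cp_sub hz sRL) h
  rw [← mul_add, ← mul_add, RDm, LEr] at h1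
  exact sub_trans (cp_pj hz hg) (cp_pj hz hm) (cp_pj hz hr) (cp_sub hz sm) h1

end base

theorem t_DICH : S_DICH.{u} := by
  intro A _ hInf hLR hGC g q r hgi hq hr hqr hsub
  have hg : PJ g := hgi.1
  have hrq := orth_symm hq hr hqr
  have hu : PJ (q + r) := pj_add hq hr hqr
  obtain ⟨g1, g2, hg1, hg2, h12, hl1, hl2, ⟨v1, a1, a2⟩, ⟨v2, b1, b2⟩⟩ := hInf g hgi
  unfold Le at hl1 hl2
  rw [sub_iff hg hu] at hsub
  obtain ⟨v, c1, c2⟩ := hsub
  have vg : v * g = v := init hg c1
  have gg1 : g * g1 = g1 := le_symm hg1 hg hl1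
  have gg2 : g * g2 = g2 := le_symm hg2 hg hl2
  have v1g : v1 * g = v1 := init hg a1
  have v2g : v2 * g = v2 := init hg b1
  have g1v1 : g1 * v1 = v1 := by rw [← a2, mul_assoc, a1, v1g]
  have g2v2 : g2 * v2 = v2 := by rw [← b2, mul_assoc, b1, v2g]
  have gv1 : g * v1 = v1 := by rw [← g1v1, ← mul_assoc, gg1]
  have gv2 : g * v2 = v2 := by rw [← g2v2, ← mul_assoc, gg2]
  -- m and n
  have key : ∀ a b : A, v * a * star v * (v * b * star v) = v * (a * g * b) * star v := by
    intro a b
    rw [← c1]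
    noncomm_ring
  have hm : PJ (v * g1 * star v) := by
    refine mkPJ ?_ ?_
    · rw [key, hl1, idm hg1]
    · rw [star_mul, star_mul, star_star, sa hg1]
      noncomm_ring
  have hn : PJ (v * g2 * star v) := by
    refine mkPJ ?_ ?_
    · rw [key, hl2, idm hg2]
    · rw [star_mul, star_mul, star_star, sa hg2]
      noncomm_ring
  have hmn : v * g1 * star v * (v * g2 * star v) = 0 := by
    rw [key, hl1, h12]
    simp
  have hum : (q + r) * (v * g1 * star v) = v * g1 * star v := by
    rw [← mul_assoc, ← mul_assoc, c2]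
  have hun : (q + r) * (v * g2 * star v) = v * g2 * star v := by
    rw [← mul_assoc, ← mul_assoc, c2]
  have sm : Sub g (v * g1 * star v) := by
    rw [sub_iff hg hm]
    refine ⟨v * v1, ?_, ?_⟩
    · rw [star_mul]
      calc star v1 * star v * (v * v1) = star v1 * (star v * v * v1) := by noncomm_ring
        _ = g := by rw [c1, gv1, a1]
    · calc v * g1 * star v * (v * v1) = v * (g1 * (star v * v * v1)) := by noncomm_ring
        _ = v * v1 := by rw [c1, gv1, g1v1]
  have sn : Sub g (v * g2 * star v) := by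
    rw [sub_iff hg hn]
    refine ⟨v * v2, ?_, ?_⟩
    · rw [star_mul]
      calc star v2 * star v * (v * v2) = star v2 * (star v * v * v2) := by noncomm_ring
        _ = g := by rw [c1, gv2, b1]
    · calc v * g2 * star v * (v * v2) = v * (g2 * (star v * v * v2)) := by noncomm_ring
        _ = v * v2 := by rw [c1, gv2, g2v2]
  generalize v * g1 * star v = m at *
  generalize v * g2 * star v = n at *
  have mu : m * (q + r) = m := le_symm' hm hu hum
  have hn' : PJ (q + r - m) := pj_sub hu hm mu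
  have hun' : (r + q) * (q + r - m) = q + r - m := by
    rw [add_comm r q, mul_sub, idm hu, hum]
  have nm : n * m = 0 := orth_symm hm hn hmn
  have nn' : n * (q + r - m) = n := by
    rw [mul_sub, le_symm' hn hu hun, nm, sub_zero]
  obtain ⟨R, L, D, E, hR, hL, hD, hE, RD, LE, RDm, LEr, sRL, Dm, Dq, Em, ht⟩ :=
    half hLR hq hr hm hqr hum
  obtain ⟨R', L', D', E', hR', hL', hD', hE', RD', LE', RDm', LEr', sRL', Dm', Dq', Em', ht'⟩ :=
    half hLR hr hq hn' hrq hun'
  -- D' ≤ E
  have hD'E : D' * E = D' := by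
    apply ht D' hD'
    · rw [← Dm', mul_assoc, sub_mul, hum, idm hm, sub_self, mul_zero]
    · exact Dq'
  have hDE' : D * E' = D := by
    apply ht' D hD
    · rw [← Dm, mul_assoc, mul_sub, mu, idm hm, sub_self, mul_zero]
    · exact Dq
  obtain ⟨z, hz, hz1, hz2⟩ := hGC D E hD hE
  have hy := cp_one_sub hz
  refine ⟨1 - z, hy, ?_, ?_⟩
  · have h1 : Sub ((1 - z) * D') ((1 - z) * E') :=
      sub_trans (cp_pj hy hD') (cp_pj hy hE) (cp_pj hy hE') (cp_sub hy (sub_of_le hD' hE hD'E))
        (sub_trans (cp_pj hy hE) (cp_pj hy hD) (cp_pj hy hE') hz2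
          (cp_sub hy (sub_of_le hD hE' hDE')))
    exact cp_end hy hR' hD' hL' hE' hg hn' hq RD' LE' RDm' LEr' sRL' h1
      (sub_trans hg hn hn' sn (sub_of_le hn hn' nn'))
  · rw [sub_sub_cancel]
    exact cp_end hz hR hD hL hE hg hm hr RD LE RDm LEr sRL hz1 sm

end Pool.Agent.U460.AWQ
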